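import Pool.Agent.EGR.All

/-!
# MP_d778c7_co, Q1 (Erdős–Graham 1973): graphs whose 2-core has fewer than `n` vertices

For all sufficiently large `n`: every connected graph `G` with `n choose 2` edges whose 2-core has
at most `n - 1` vertices satisfies `r(G) ≤ r(K_n)` (no bound on the number of vertices of `G`).
-/

set_option autoImplicit false

open scoped Classical

namespace Pool.Agent.Results.MP_d778c7_co.SmallTwoCore

theorem result : ∃ n₀ : ℕ, ∀ n ≥ n₀, ∀ (V : Type) [Fintype V] (G : SimpleGraph V),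
    G.Connected → G.edgeSet.ncard = n.choose 2 →
    (∀ S : Finset V, (∀ v ∈ S, 2 ≤ (S.filter (fun w => G.Adj v w)).card) → S.card < n) →
    ∀ N : ℕ,
      (∀ H : SimpleGraph (Fin N),
        (⊤ : SimpleGraph (Fin n)).IsContained H ∨ (⊤ : SimpleGraph (Fin n)).IsContained Hᶜ) →
      (∀ H : SimpleGraph (Fin N), G.IsContained H ∨ G.IsContained Hᶜ) :=
  Pool.Agent.EGR.all_I

end Pool.Agent.Results.MP_d778c7_co.SmallTwoCore
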